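import Pool.Agent.helper83.FI.SpecR

/-! Row RR2 of project fi, block R: orthogonality. -/

set_option autoImplicit false

namespace Pool.Agent.FI

open Pool.Agent.helper58.DC Pool.Agent.DI Pool.Agent.GR Pool.Agent.OB

theorem RR2_pow {G : Type} [Group G] (i : G → ℂ) (g : G) (h : ∀ x, i (g * x * g⁻¹) = i x) (k : ℕ) :
    ∀ x, i (g ^ k * x * (g ^ k)⁻¹) = i x := by
  induction k with
  | zero => intro x; simp
  | succ n ih =>
    intro x
    have h1 : g ^ (n + 1) * x * (g ^ (n + 1))⁻¹ = g * (g ^ n * x * (g ^ n)⁻¹) * g⁻¹ := by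
      rw [pow_succ']
      group
    rw [h1, h, ih]

theorem RR2 (hRGK : RGK_stmt) (hRCY : RCY_stmt) (hRPY : RPY_stmt) (hCOF : COF_stmt)
    (hEVF : EVF_stmt) : RR2_stmt := by
  intro p M hs G _ _ H y hy v hv y' hy' v' hv' hpy hpy' hpv hpv' hc hc' i j hi hj hii hjj hco
  obtain ⟨⟨k, hk⟩, -⟩ := hRPY p hs.pr G y v hpy hpv hc
  obtain ⟨⟨k', hk'⟩, -⟩ := hRPY p hs.pr G y' v' hpy' hpv' hc'
  have hiy : ∀ x, i (y * x * y⁻¹) = i x := by
    have h := RR2_pow i (y * v) hii k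
    rwa [hk] at h
  have hjy : ∀ x, j (y' * x * y'⁻¹) = j x := by
    have h := RR2_pow j (y' * v') hjj k'
    rwa [hk'] at h
  have h0 : Idm M H (0 : G → ℂ) := by
    refine ⟨fun _ _ => rfl, fun _ => IntAt.zero hs, ?_⟩
    funext g
    unfold cv
    simp
  have hco0 : ∀ z w, co (0 : G → ℂ) 0 z w = 0 := fun z w => (hCOF G).2.2.2.2.2 0 z w
  have h := hRGK p M hs G H y hy v hv y' hy' v' hv' hpy hpy' hpv hpv' hc hc' i j 0 0 hi hj h0 h0
    hii (fun _ => rfl) hjj (fun _ => rfl) (fun z hz w hw e1 e2 => by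
      rw [hco0, sub_zero]
      have h1 := hRCY p M hs G y y' hpy i j hi.int hj.int hiy hjy z w e1 e2
      have h2 := h1.add hs (hco z hz w hw e1 e2)
      rwa [sub_add_cancel] at h2)
  rw [h]
  have hev0 : ∀ (χ : G → ℂ) (g : G), ev χ (0 : G → ℂ) g = 0 := fun χ g => (hEVF G χ g).2.2.2.1
  refine finsum_mem_eq_zero_of_forall_eq_zero fun χ _ => ?_
  rw [hev0, zero_mul]

end Pool.Agent.FI
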