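import Pool.Agent.helper83.FI.SpecR

/-! Row RR4 of project fi, block R: the norm of the block part. -/

set_option autoImplicit false

namespace Pool.Agent.FI

open Pool.Agent.helper58.DC Pool.Agent.DI Pool.Agent.GR Pool.Agent.OB

theorem RR4 (hRR3 : RR3_stmt) (hEVM : EVM_stmt) (hCJI : CJI_stmt) (hIDM : IDM_stmt)
    (hEIN : EIN_stmt) (hSFC : SFC_stmt) (hB2 : B2_stmt) : RR4_stmt := by
  intro p M hs G _ _ H y hy hpy S S' hS hS'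
  have hyL : y ∈ Cz H y := ⟨hy, Subgroup.mem_centralizer_iff.2 fun z hz => by
    rw [Set.mem_singleton_iff.1 hz]⟩
  have hcom : ∀ h ∈ Cz H y, y * h = h * y := fun h hh =>
    Subgroup.mem_centralizer_iff.1 hh.2 y rfl
  have hev : ∀ T : Set (G → ℂ), T ⊆ IrrOn (Cz H y) → ∀ ψ ∈ IrrOn (Cz H y), ∀ g ∈ Cz H y,
      (ψ ∈ T → ev ψ (eS (Cz H y) T) g = ψ g) ∧ (ψ ∉ T → ev ψ (eS (Cz H y) T) g = 0) := by
    intro T hT ψ hψ g hg
    obtain ⟨hCF, hcc, -, -⟩ := hIDM G (Cz H y) T hT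
    have h1 := (hEVM G (Cz H y) ψ hψ _ hCF g hg).2
    refine ⟨fun h => ?_, fun h => ?_⟩
    · rw [h1, hcc ψ hψ, if_pos h, one_mul]
    · rw [h1, hcc ψ hψ, if_neg h, zero_mul]
  have hidm : ∀ T : Set (G → ℂ), BC M (Cz H y) T → Idm M (Cz H y) (eS (Cz H y) T) := by
    intro T hT
    obtain ⟨hCF, -, hid, -⟩ := hIDM G (Cz H y) T hT.sub
    exact ⟨hCF.2, hEIN p M hs G _ T hT, hid⟩
  have hinv : ∀ T : Set (G → ℂ), BC M (Cz H y) T → ∀ g ∈ Cz H y, ∀ x,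
      eS (Cz H y) T (g * x * g⁻¹) = eS (Cz H y) T x := by
    intro T hT g hg x
    exact (hIDM G (Cz H y) T hT.sub).1.1 g hg x
  have key : ∀ T T' : Set (G → ℂ), BC M (Cz H y) T → BC M (Cz H y) T' →
      ∀ v ∈ Cz H y, ∀ v' ∈ Cz H y, PReg p v → PReg p v' →
      ∑ᶠ χ ∈ IrrOn H, ev χ (eS (Cz H y) T) (y * v) * ev χ (eS (Cz H y) T') (y * v')⁻¹ =
        Sf (T ∩ T') v v' := by
    intro T T' hT hT' v hv v' hv' hpv hpv'
    have h1 := hRR3 p M hs G H y hy hpy v hv v' hv' hpv hpv' _ _ (hidm T hT) (hidm T' hT')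
      (hinv T hT _ (mul_mem hyL hv)) (hinv T' hT' _ (mul_mem hyL hv'))
    rw [h1, ← (hSFC G (Cz H y) (T ∩ T') (fun ψ hψ => hT.sub hψ.1)).2.2 y hyL hcom v hv v' hv']
    unfold Sf
    rw [← finsum_mem_inter_add_sdiff (s := IrrOn (Cz H y)) (T ∩ T') ((hB2 G (Cz H y)).1)]
    have h2 : IrrOn (Cz H y) ∩ (T ∩ T') = T ∩ T' :=
      Set.inter_eq_right.2 fun ψ hψ => hT.sub hψ.1
    rw [h2]
    have h3 : ∑ᶠ ψ ∈ IrrOn (Cz H y) \ (T ∩ T'), ev ψ (eS (Cz H y) T) (y * v) *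
        ev ψ (eS (Cz H y) T') (y * v')⁻¹ = 0 := by
      refine finsum_mem_eq_zero_of_forall_eq_zero fun ψ hψ => ?_
      by_cases h : ψ ∈ T
      · have h' : ψ ∉ T' := fun h' => hψ.2 ⟨h, h'⟩
        rw [(hev T' hT'.sub ψ hψ.1 _ (inv_mem (mul_mem hyL hv'))).2 h', mul_zero]
      · rw [(hev T hT.sub ψ hψ.1 _ (mul_mem hyL hv)).2 h, zero_mul]
    rw [h3, add_zero]
    refine finsum_mem_congr rfl fun ψ hψ => ?_
    rw [(hev T hT.sub ψ (hT.sub hψ.1) _ (mul_mem hyL hv)).1 hψ.1,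
      (hev T' hT'.sub ψ (hT.sub hψ.1) _ (inv_mem (mul_mem hyL hv'))).1 hψ.2]
  refine ⟨key S S' hS hS', ?_⟩
  have hreg1 : PReg p (1 : G) := by
    unfold PReg
    rw [orderOf_one]
    exact fun h => hs.pr.one_lt.ne' (Nat.dvd_one.1 h)
  have h1 := key S S hS hS 1 (one_mem _) 1 (one_mem _) hreg1 hreg1
  rw [mul_one, Set.inter_self] at h1
  have h2 : Sf S 1 1 = ∑ᶠ ψ ∈ S, ψ 1 * ψ 1 := by
    unfold Sf
    rw [inv_one]
  rw [← h2, ← h1]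
  refine finsum_mem_congr rfl fun χ hχ => ?_
  have hL : ∀ x, x ∉ H → eS (Cz H y) S x = 0 := fun x hx =>
    (hidm S hS).sup x fun h => hx h.1
  rw [hCJI G H (eS (Cz H y) S) hL (hidm S hS).idem y hy (hinv S hS y hyL) χ hχ]

end Pool.Agent.FI
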